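import Pool.Agent.K7.H47.DM.Stm4

set_option autoImplicit false

namespace Pool.Agent.K7.H42.D4

open Pool.Agent.K7.H47.DM4 Finset

variable {ι : Type} [Fintype ι] [DecidableEq ι]

theorem aux (t j cl : ι → ℕ) (ht : Function.Injective t) (σ σ' : Equiv.Perm ι)
    (hσ : Feas t j σ) (hσ' : Feas t j σ') (ho : ∀ τ, Feas t j τ → Wt t cl τ ≤ Wt t cl σ) (r : ι)
    (h : cl (σ'.symm r) < cl (σ.symm r))
    (hmin : ∀ q, t q < t r → cl (σ.symm q) = cl (σ'.symm q)) : False := by
  classical
  set κ := cl (σ'.symm r) with hκ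
  -- rows
  have hcard : (univ.filter fun q => cl (σ.symm q) = κ ∧ t q ≤ t r).card <
      (univ.filter fun q => cl (σ'.symm q) = κ ∧ t q ≤ t r).card := by
    refine Finset.card_lt_card (Finset.ssubset_iff_of_subset ?_ |>.2 ⟨r, ?_, ?_⟩)
    · intro q hq
      rw [mem_filter] at hq ⊢
      refine ⟨mem_univ _, ?_, hq.2.2⟩
      rcases lt_or_eq_of_le hq.2.2 with h1 | h1
      · rw [← hmin q h1]
        exact hq.2.1
      · have := ht h1
        subst this
        rfl
    · rw [mem_filter]
      exact ⟨mem_univ _, rfl, le_rfl⟩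
    · rw [mem_filter]
      rintro ⟨-, h1, -⟩
      exact absurd h1 h.ne'
  have e1 : (univ.filter fun c => cl c = κ ∧ t (σ c) ≤ t r).card =
      (univ.filter fun q => cl (σ.symm q) = κ ∧ t q ≤ t r).card := by
    refine Finset.card_bij (fun c _ => σ c) ?_ (fun a _ b _ hab => σ.injective hab) ?_
    · intro c hc
      rw [mem_filter] at hc ⊢
      simpa using hc
    · intro q hq
      rw [mem_filter] at hq
      refine ⟨σ.symm q, ?_, by simp⟩
      rw [mem_filter]
      simpa using hq
  have e2 : (univ.filter fun c => cl c = κ ∧ t (σ' c) ≤ t r).card =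
      (univ.filter fun q => cl (σ'.symm q) = κ ∧ t q ≤ t r).card := by
    refine Finset.card_bij (fun c _ => σ' c) ?_ (fun a _ b _ hab => σ'.injective hab) ?_
    · intro c hc
      rw [mem_filter] at hc ⊢
      simpa using hc
    · intro q hq
      rw [mem_filter] at hq
      refine ⟨σ'.symm q, ?_, by simp⟩
      rw [mem_filter]
      simpa using hq
  rw [← e1, ← e2] at hcard
  obtain ⟨x, hx, hx'⟩ := Finset.exists_mem_notMem_of_card_lt_card hcard
  rw [mem_filter] at hx hx'
  obtain ⟨-, hx1, hx2⟩ := hx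
  have hx3 : t r < t (σ x) := by
    by_contra hcon
    exact hx' ⟨mem_univ _, hx1, not_lt.1 hcon⟩
  set y := σ.symm r with hy
  have hσy : σ y = r := by simp [hy]
  have hxy : x ≠ y := by
    intro hxy
    rw [hxy, hσy] at hx3
    exact lt_irrefl _ hx3
  -- the exchange
  set τ : Equiv.Perm ι := (Equiv.swap x y).trans σ with hτ
  have hτx : τ x = r := by simp [hτ, hσy]
  have hτy : τ y = σ x := by simp [hτ]
  have hτc : ∀ c, c ≠ x → c ≠ y → τ c = σ c := by
    intro c h1 h2
    simp [hτ, Equiv.swap_apply_of_ne_of_ne h1 h2]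
  have hf : Feas t j τ := by
    intro c
    by_cases h1 : c = x
    · subst h1
      rw [hτx]
      exact (hσ' c).trans hx2
    · by_cases h2 : c = y
      · subst h2
        rw [hτy]
        have := hσ (σ.symm r)
        rw [Equiv.apply_symm_apply] at this
        exact this.trans hx3.le
      · rw [hτc c h1 h2]
        exact hσ c
  have hw := ho τ hf
  unfold Wt at hw
  rw [← Finset.add_sum_erase univ _ (mem_univ x), ← Finset.add_sum_erase univ (fun c => cl c * t (σ c)) (mem_univ x),
    ← Finset.add_sum_erase (univ.erase x) _ (mem_erase.2 ⟨hxy.symm, mem_univ y⟩),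
    ← Finset.add_sum_erase (univ.erase x) (fun c => cl c * t (σ c)) (mem_erase.2 ⟨hxy.symm, mem_univ y⟩)] at hw
  have hrest : ∑ c ∈ (univ.erase x).erase y, cl c * t (τ c) =
      ∑ c ∈ (univ.erase x).erase y, cl c * t (σ c) := by
    refine Finset.sum_congr rfl fun c hc => ?_
    rw [mem_erase, mem_erase] at hc
    rw [hτc c hc.2.1 hc.1]
  rw [hrest, hτx, hτy, hσy] at hw
  have h5 : cl x < cl y := by rw [hx1]; exact h
  have h6 : cl x * t r + cl y * t (σ x) ≤ cl x * t (σ x) + cl y * t r := by omega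
  nlinarith

theorem u : StU := by
  classical
  intro ι _ _ t j cl ht σ σ' hσ hσ' ho ho'
  by_contra hcon
  push Not at hcon
  have hne : (univ.filter fun r => cl (σ.symm r) ≠ cl (σ'.symm r)).Nonempty := by
    obtain ⟨r, hr⟩ := hcon
    exact ⟨r, by rw [mem_filter]; exact ⟨mem_univ _, hr⟩⟩
  obtain ⟨r, hr, hmin⟩ := Finset.exists_min_image _ t hne
  rw [mem_filter] at hr
  have hmin' : ∀ q, t q < t r → cl (σ.symm q) = cl (σ'.symm q) := by
    intro q hq
    by_contra h
    have := hmin q (by rw [mem_filter]; exact ⟨mem_univ _, h⟩)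
    omega
  rcases lt_or_gt_of_ne hr.2 with h | h
  · exact aux t j cl ht σ' σ hσ' hσ ho' r h fun q hq => (hmin' q hq).symm
  · exact aux t j cl ht σ σ' hσ hσ' ho r h hmin'

end Pool.Agent.K7.H42.D4
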