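import Pool.Agent.K7.H50.OG.Basic

set_option autoImplicit false

/-! JOB M23 of project OG. -/

namespace Pool.Agent.K7.H42.OG

open Pool.Agent.K7.H50.OG

theorem stM23 (hV : StV2) : StM23 := by
  intro k E a b p m hL hp hpk hm hmk ep em hpm
  rcases hV k E a b p m hL hp hpk hm hmk ep em hpm with h | ⟨u, hu, hua, hP⟩
  · exact h
  rcases hV k E a b m p hL hm hmk hp hpk em ep (Ne.symm hpm) with h | ⟨u', hu', hua', hP'⟩
  · exact h
  exfalso
  have hbp := hL.u1 p hp (by omega) ep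
  have hbm := hL.u1 m hm (by omega) em
  have hab := hL.hab
  have hb := hL.hb
  obtain ⟨i, j, h1, h2, h3, h4, h5⟩ := hL.con (fun x => u ≤ x ∧ u' ≤ x ∧ x ≤ a - 1)
    ⟨a - 1, by omega, by omega, by omega, by omega, by omega⟩
    ⟨1, by omega, by omega, fun h => by omega⟩
  have A := hP i j h1 h2 h3 h4
  have B := hP' i j h1 h2 h3 h4
  by_cases hi : u ≤ i ∧ u' ≤ i ∧ i ≤ a - 1
  · have hj := h5.1 hi
    have A1 := A.1 ⟨hi.1, hi.2.2⟩ (by omega)
    have B1 := B.1 ⟨hi.2.1, hi.2.2⟩ (by omega)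
    omega
  · have hj : u ≤ j ∧ u' ≤ j ∧ j ≤ a - 1 := by
      by_contra hj
      exact hi (h5.2 hj)
    rcases Nat.lt_or_ge i u with h6 | h6
    · have := A.2 ⟨hj.1, hj.2.2⟩ (by omega)
      omega
    · have h7 : i < u' := by
        by_contra h8
        exact hi ⟨h6, by omega, by omega⟩
      have := B.2 ⟨hj.2.1, hj.2.2⟩ (by omega)
      omega

end Pool.Agent.K7.H42.OG
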