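import Pool.Agent.K7.H50.OG.Basic

set_option autoImplicit false

/-! JOB N4 of project OG: the word `A^al c C^al q B^al D^be A^be r B^be p`. -/

namespace Pool.Agent.K7.H42.OG

open Pool.Agent.K7.H50.OG

/-- red pairs of classes; `A B C D c p q r` are `0 1 2 3 4 5 6 7` -/
def r8 (a b : Fin 8) : Bool :=
  match a.val, b.val with
  | 0, 0 => true | 1, 1 => true | 2, 2 => true | 3, 3 => true
  | 4, 4 => true | 5, 5 => true | 6, 6 => true | 7, 7 => true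
  | 4, 2 => true | 2, 4 => true
  | 4, 3 => true | 3, 4 => true
  | 2, 3 => true | 3, 2 => true
  | 0, 4 => true | 4, 0 => true
  | 0, 5 => true | 5, 0 => true
  | 5, 6 => true | 6, 5 => true
  | 6, 2 => true | 2, 6 => true
  | 6, 1 => true | 1, 6 => true
  | 1, 7 => true | 7, 1 => true
  | 7, 3 => true | 3, 7 => true
  | _, _ => false

/-- the word -/
def wd (al be x : ℕ) : Fin 8 :=
  if x ≤ al then 0
  else if x ≤ al + 1 then 4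
  else if x ≤ 2 * al + 1 then 2
  else if x ≤ 2 * al + 2 then 6
  else if x ≤ 3 * al + 2 then 1
  else if x ≤ 3 * al + be + 2 then 3
  else if x ≤ 3 * al + 2 * be + 2 then 0
  else if x ≤ 3 * al + 2 * be + 3 then 7
  else if x ≤ 3 * al + 3 * be + 3 then 1
  else 5

theorem no4 : ∀ a b c d : Fin 8, r8 a b = false → r8 a c = false → r8 a d = false →
    r8 b c = false → r8 b d = false → r8 c d = false → False := by decide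

theorem runs (al be x : ℕ) : (x ≤ al ∧ wd al be x = 0) ∨ (x = al + 1 ∧ wd al be x = 4) ∨
    (al + 2 ≤ x ∧ x ≤ 2 * al + 1 ∧ wd al be x = 2) ∨
    (x = 2 * al + 2 ∧ wd al be x = 6) ∨
    (2 * al + 3 ≤ x ∧ x ≤ 3 * al + 2 ∧ wd al be x = 1) ∨
    (3 * al + 3 ≤ x ∧ x ≤ 3 * al + be + 2 ∧ wd al be x = 3) ∨
    (3 * al + be + 3 ≤ x ∧ x ≤ 3 * al + 2 * be + 2 ∧ wd al be x = 0) ∨
    (x = 3 * al + 2 * be + 3 ∧ wd al be x = 7) ∨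
    (3 * al + 2 * be + 4 ≤ x ∧ x ≤ 3 * al + 3 * be + 3 ∧ wd al be x = 1) ∨
    (3 * al + 3 * be + 4 ≤ x ∧ wd al be x = 5) := by
  unfold wd
  split_ifs <;> simp <;> omega

/-- the lower part: `z` is red to `y`, and `al` vertices lie in `[z, x)` -/
theorem low (al be x y z : ℕ) (hal : 1 ≤ al) (hz : 1 ≤ z) (hzx : z + al ≤ x) (hxy : x < y)
    (h1 : r8 (wd al be z) (wd al be y) = true) (h2 : r8 (wd al be x) (wd al be y) = true) :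
    (x = 2 * al + 1 ∧ 3 * al + 3 ≤ y ∧ y ≤ 3 * al + be + 2) ∨
    (3 * al + 3 ≤ x ∧ y ≤ 3 * al + be + 2) ∨
    (x = al + 1 ∧ 3 * al + be + 3 ≤ y ∧ y ≤ 3 * al + 2 * be + 2) ∨
    (3 * al + be + 3 ≤ x ∧ y ≤ 3 * al + 2 * be + 2) ∨
    (3 * al + 3 ≤ x ∧ x ≤ 3 * al + be + 2 ∧ y = 3 * al + 2 * be + 3) ∨
    (2 * al + 3 ≤ x ∧ 3 * al + 2 * be + 4 ≤ y ∧ y ≤ 3 * al + 3 * be + 3) ∨
    3 * al + 3 * be + 4 ≤ y := by
  rcases runs al be y with ⟨y1, y2⟩ | ⟨y1, y2⟩ | ⟨y1, y3, y2⟩ | ⟨y1, y2⟩ | ⟨y1, y3, y2⟩ |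
    ⟨y1, y3, y2⟩ | ⟨y1, y3, y2⟩ | ⟨y1, y2⟩ | ⟨y1, y3, y2⟩ | ⟨y1, y2⟩ <;>
  rcases runs al be x with ⟨x1, x2⟩ | ⟨x1, x2⟩ | ⟨x1, x3, x2⟩ | ⟨x1, x2⟩ | ⟨x1, x3, x2⟩ |
    ⟨x1, x3, x2⟩ | ⟨x1, x3, x2⟩ | ⟨x1, x2⟩ | ⟨x1, x3, x2⟩ | ⟨x1, x2⟩ <;>
  first
  | (exfalso; omega)
  | (rw [x2, y2] at h2; exact absurd h2 (by decide))
  | omega
  | (exfalso
     rcases runs al be z with ⟨z1, z2⟩ | ⟨z1, z2⟩ | ⟨z1, z3, z2⟩ | ⟨z1, z2⟩ | ⟨z1, z3, z2⟩ |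
       ⟨z1, z3, z2⟩ | ⟨z1, z3, z2⟩ | ⟨z1, z2⟩ | ⟨z1, z3, z2⟩ | ⟨z1, z2⟩ <;>
     first
     | omega
     | (rw [z2, y2] at h1; exact absurd h1 (by decide)))
  | (rcases runs al be z with ⟨z1, z2⟩ | ⟨z1, z2⟩ | ⟨z1, z3, z2⟩ | ⟨z1, z2⟩ | ⟨z1, z3, z2⟩ |
       ⟨z1, z3, z2⟩ | ⟨z1, z3, z2⟩ | ⟨z1, z2⟩ | ⟨z1, z3, z2⟩ | ⟨z1, z2⟩ <;>
     first
     | omega
     | (exfalso; rw [z2, y2] at h1; exact absurd h1 (by decide)))

/-- the upper part -/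
theorem upp (al be x y v w : ℕ) (hal : 1 ≤ al) (hbe : 1 ≤ be) (hxy : x < y) (hv : y + be ≤ v + 1) (hvw : v < w)
    (hw : w ≤ 3 * al + 3 * be + 4)
    (h1 : r8 (wd al be x) (wd al be v) = true) (h2 : r8 (wd al be x) (wd al be w) = true)
    (h : (x = 2 * al + 1 ∧ 3 * al + 3 ≤ y ∧ y ≤ 3 * al + be + 2) ∨
    (3 * al + 3 ≤ x ∧ y ≤ 3 * al + be + 2) ∨
    (x = al + 1 ∧ 3 * al + be + 3 ≤ y ∧ y ≤ 3 * al + 2 * be + 2) ∨
    (3 * al + be + 3 ≤ x ∧ y ≤ 3 * al + 2 * be + 2) ∨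
    (3 * al + 3 ≤ x ∧ x ≤ 3 * al + be + 2 ∧ y = 3 * al + 2 * be + 3) ∨
    (2 * al + 3 ≤ x ∧ 3 * al + 2 * be + 4 ≤ y ∧ y ≤ 3 * al + 3 * be + 3) ∨
    3 * al + 3 * be + 4 ≤ y) (hr : r8 (wd al be x) (wd al be y) = true) : False := by
  rcases runs al be x with ⟨x1, x2⟩ | ⟨x1, x2⟩ | ⟨x1, x3, x2⟩ | ⟨x1, x2⟩ | ⟨x1, x3, x2⟩ |
    ⟨x1, x3, x2⟩ | ⟨x1, x3, x2⟩ | ⟨x1, x2⟩ | ⟨x1, x3, x2⟩ | ⟨x1, x2⟩ <;>
  rcases runs al be y with ⟨y1, y2⟩ | ⟨y1, y2⟩ | ⟨y1, y3, y2⟩ | ⟨y1, y2⟩ | ⟨y1, y3, y2⟩ |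
    ⟨y1, y3, y2⟩ | ⟨y1, y3, y2⟩ | ⟨y1, y2⟩ | ⟨y1, y3, y2⟩ | ⟨y1, y2⟩ <;>
  first
  | omega
  | (rw [x2, y2] at hr; exact absurd hr (by decide))
  | (rcases runs al be w with ⟨w1, w2⟩ | ⟨w1, w2⟩ | ⟨w1, w3, w2⟩ | ⟨w1, w2⟩ | ⟨w1, w3, w2⟩ |
       ⟨w1, w3, w2⟩ | ⟨w1, w3, w2⟩ | ⟨w1, w2⟩ | ⟨w1, w3, w2⟩ | ⟨w1, w2⟩ <;>
     first
     | omega
     | (rw [x2, w2] at h2; exact absurd h2 (by decide))
     | (rcases runs al be v with ⟨v1, v2⟩ | ⟨v1, v2⟩ | ⟨v1, v3, v2⟩ | ⟨v1, v2⟩ | ⟨v1, v3, v2⟩ |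
          ⟨v1, v3, v2⟩ | ⟨v1, v3, v2⟩ | ⟨v1, v2⟩ | ⟨v1, v3, v2⟩ | ⟨v1, v2⟩ <;>
        first
        | omega
        | (rw [x2, v2] at h1; exact absurd h1 (by decide))))

theorem stN4 : StN4 := by
  intro k a ha hk hG
  obtain ⟨al, rfl⟩ : ∃ al, a = al + 1 := ⟨a - 1, by omega⟩
  obtain ⟨be, rfl⟩ : ∃ be, k = al + be + 2 := ⟨k - al - 2, by omega⟩
  have hal : 1 ≤ al := by omega
  have hbe : 1 ≤ be := by omega
  rcases hG (fun x y => r8 (wd al be x) (wd al be y) = true) with ⟨f, h1, h2, h3⟩ | ⟨g, -, h⟩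
  · have e1 := mono_gap h2 (show 1 ≤ 1 by omega) (show 1 ≤ al + 1 by omega) (by omega)
    have e2 := h2 (al + 1) (al + 2) (by omega) (by omega) (by omega)
    have e3 := mono_gap h2 (show 1 ≤ al + 2 by omega) (show al + 2 ≤ al + be + 1 by omega)
      (by omega)
    have e4 := h2 (al + be + 1) (al + be + 2) (by omega) (by omega) (by omega)
    have e5 := (h1 1 (by omega) (by omega)).1
    have e6 := (h1 (al + be + 2) (by omega) (by omega)).2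
    have r1 : r8 (wd al be (f 1)) (wd al be (f (al + 2))) = true :=
      h3 1 (al + 2) (by omega) (by omega) (by omega) (Or.inl ⟨by omega, by omega⟩)
    have r2 : r8 (wd al be (f (al + 1))) (wd al be (f (al + 2))) = true :=
      h3 (al + 1) (al + 2) (by omega) (by omega) (by omega) (Or.inl ⟨by omega, by omega⟩)
    have r3 : r8 (wd al be (f (al + 1))) (wd al be (f (al + be + 1))) = true :=
      h3 (al + 1) (al + be + 1) (by omega) (by omega) (by omega) (Or.inr ⟨by omega, by omega⟩)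
    have r4 : r8 (wd al be (f (al + 1))) (wd al be (f (al + be + 2))) = true :=
      h3 (al + 1) (al + be + 2) (by omega) (by omega) (by omega) (Or.inr ⟨by omega, by omega⟩)
    have e7 : (4 - 1) * (al + be + 2 - 1) + 1 = 3 * al + 3 * be + 4 := by omega
    rw [e7] at e6
    exact upp al be _ _ _ _ hal hbe e2 (by omega) e4 e6 r3 r4
      (low al be _ _ _ hal e5 (by omega) e2 r1 r2) r2
  · have q : ∀ i j, 1 ≤ i → i < j → j ≤ 4 → r8 (wd al be (g i)) (wd al be (g j)) = false :=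
      fun i j a b c => by simpa using (h i j a b c).2
    exact no4 _ _ _ _ (q 1 2 (by omega) (by omega) (by omega)) (q 1 3 (by omega) (by omega)
      (by omega)) (q 1 4 (by omega) (by omega) (by omega)) (q 2 3 (by omega) (by omega)
      (by omega)) (q 2 4 (by omega) (by omega) (by omega)) (q 3 4 (by omega) (by omega)
      (by omega))

end Pool.Agent.K7.H42.OG
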