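import Pool.Agent.K7.H50.OG.Basic

set_option autoImplicit false

/-! JOBS S2 and S3 of project OG (the words with a central pair of single letters), and a general
lemma on words with seven runs. -/

namespace Pool.Agent.K7.H42.OG2

open Pool.Agent.K7.H50.OG

/-- a word with seven runs -/
def w7 (c : Fin 7 → Fin 5) (t1 t2 t3 t4 t5 t6 x : ℕ) : Fin 5 :=
  if x ≤ t1 then c 0
  else if x ≤ t2 then c 1
  else if x ≤ t3 then c 2
  else if x ≤ t4 then c 3
  else if x ≤ t5 then c 4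
  else if x ≤ t6 then c 5
  else c 6

theorem cuts7 {k N : ℕ} {E : Gr} (c : Fin 7 → Fin 5) {t1 t2 t3 t4 t5 t6 : ℕ} (s1 : t1 ≤ t2)
    (s2 : t2 ≤ t3) (s3 : t3 ≤ t4) (s4 : t4 ≤ t5) (s5 : t5 ≤ t6) (s6 : t6 ≤ N)
    (h : Cop k N E (fun x y => rg (w7 c t1 t2 t3 t4 t5 t6 x) (w7 c t1 t2 t3 t4 t5 t6 y))) :
    ∃ u1 u2 u3 u4 u5 u6 : ℕ, u1 ≤ u2 ∧ u2 ≤ u3 ∧ u3 ≤ u4 ∧ u4 ≤ u5 ∧ u5 ≤ u6 ∧ u6 ≤ k ∧
      u1 ≤ t1 ∧ u2 + t1 ≤ u1 + t2 ∧ u3 + t2 ≤ u2 + t3 ∧ u4 + t3 ≤ u3 + t4 ∧ u5 + t4 ≤ u4 + t5 ∧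
      u6 + t5 ≤ u5 + t6 ∧ k + t6 ≤ u6 + N ∧
      ∀ i j, 1 ≤ i → i < j → j ≤ k → E i j →
        rg (w7 c u1 u2 u3 u4 u5 u6 i) (w7 c u1 u2 u3 u4 u5 u6 j) := by
  obtain ⟨f, h1, h2, h3⟩ := h
  obtain ⟨u1, k1, l1, m1⟩ := cut h2 t1
  obtain ⟨u2, k2, l2, m2⟩ := cut h2 t2
  obtain ⟨u3, k3, l3, m3⟩ := cut h2 t3
  obtain ⟨u4, k4, l4, m4⟩ := cut h2 t4
  obtain ⟨u5, k5, l5, m5⟩ := cut h2 t5
  obtain ⟨u6, k6, l6, m6⟩ := cut h2 t6
  have mono : ∀ {t t' u u' : ℕ}, t ≤ t' → u ≤ k → u' ≤ k → (∀ i, 1 ≤ i → i ≤ u → f i ≤ t) →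
      (∀ i, u' < i → i ≤ k → t' < f i) → u ≤ u' := by
    intro t t' u u' a1 a2 a3 a4 a5
    by_contra hc
    have := a4 u (by omega) le_rfl
    have := a5 u (by omega) a2
    omega
  have o1 : u1 ≤ u2 := mono s1 k1 k2 l1 m2
  have o2 : u2 ≤ u3 := mono s2 k2 k3 l2 m3
  have o3 : u3 ≤ u4 := mono s3 k3 k4 l3 m4
  have o4 : u4 ≤ u5 := mono s4 k4 k5 l4 m5
  have o5 : u5 ≤ u6 := mono s5 k5 k6 l5 m6
  have c1 := run_card h2 k1 (Nat.zero_le _) (t := 0) (fun i a b => (h1 i (by omega) b).1) l1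
  have c2 := run_card h2 k2 o1 m1 l2
  have c3 := run_card h2 k3 o2 m2 l3
  have c4 := run_card h2 k4 o3 m3 l4
  have c5 := run_card h2 k5 o4 m4 l5
  have c6 := run_card h2 k6 o5 m5 l6
  have c7 := run_card h2 le_rfl k6 m6 (fun i a b => (h1 i a b).2)
  have e : ∀ i, 1 ≤ i → i ≤ k → w7 c t1 t2 t3 t4 t5 t6 (f i) = w7 c u1 u2 u3 u4 u5 u6 i := by
    intro i hi hik
    clear c1 c2 c3 c4 c5 c6 c7
    have q1 := l1 i hi
    have q2 := l2 i hi
    have q3 := l3 i hi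
    have q4 := l4 i hi
    have q5 := l5 i hi
    have q6 := l6 i hi
    have w1 := fun h => m1 i h hik
    have w2 := fun h => m2 i h hik
    have w3 := fun h => m3 i h hik
    have w4 := fun h => m4 i h hik
    have w5 := fun h => m5 i h hik
    have w6 := fun h => m6 i h hik
    unfold w7
    split_ifs <;> first | rfl | (exfalso; omega)
  refine ⟨u1, u2, u3, u4, u5, u6, o1, o2, o3, o4, o5, k6, by omega, by omega, by omega, by omega,
    by omega, by omega, by omega, ?_⟩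
  intro i j hi hij hj he
  have hr : rg (w7 c t1 t2 t3 t4 t5 t6 (f i)) (w7 c t1 t2 t3 t4 t5 t6 (f j)) :=
    h3 i j hi hij hj he
  rwa [e i hi (by omega), e j (by omega) hj] at hr

/-- the two sides `0, 1` and `3, 4` are joined by an edge between the classes `0` and `4` -/
theorem cross {k a : ℕ} {E : Gr} (hcon : Con k E) (hk : ∀ i, 1 ≤ i → i < k → E i k → i = a)
    (hak : a < k) (cl : ℕ → Fin 5)
    (H : ∀ i j, 1 ≤ i → i < j → j ≤ k → E i j → rg (cl i) (cl j)) (h2 : ∀ i, i < k → cl i ≠ 2)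
    (hC : ∃ i, 1 ≤ i ∧ i ≤ k ∧ (cl i = 0 ∨ cl i = 1))
    (hD : ∃ i, 1 ≤ i ∧ i ≤ k ∧ (cl i = 3 ∨ cl i = 4)) :
    ∃ i j, 1 ≤ i ∧ i < j ∧ j ≤ k ∧ E i j ∧
      ((cl i = 0 ∧ cl j = 4) ∨ (cl i = 4 ∧ cl j = 0)) := by
  by_cases ha : cl a = 0 ∨ cl a = 1
  · obtain ⟨i, j, h1, h3, h4, h5, h6⟩ := hcon (fun x => cl x = 0 ∨ cl x = 1 ∨ cl x = 2)
      (by
        obtain ⟨i, h1, h3, h4⟩ := hC
        exact ⟨i, h1, h3, by tauto⟩)
      (by
        obtain ⟨i, h1, h3, h4⟩ := hD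
        refine ⟨i, h1, h3, ?_⟩
        rcases h4 with h4 | h4 <;> rw [h4] <;> decide)
    refine ⟨i, j, h1, h3, h4, h5, ?_⟩
    have hr := H i j h1 h3 h4 h5
    have hi := h2 i (by omega)
    by_cases hj : cl j = 2
    · have hjk : j = k := by
        by_contra h
        exact h2 j (by omega) hj
      subst hjk
      have := hk i h1 h3 h5
      subst this
      exfalso
      rcases ha with ha | ha <;> rw [ha, hj] at h6 <;> revert h6 <;> decide
    · have key : ∀ p q : Fin 5, p ≠ 2 → q ≠ 2 → rg p q →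
          ((p = 0 ∨ p = 1 ∨ p = 2) ↔ ¬ (q = 0 ∨ q = 1 ∨ q = 2)) →
          ((p = 0 ∧ q = 4) ∨ (p = 4 ∧ q = 0)) := by decide
      exact key _ _ hi hj hr h6
  · obtain ⟨i, j, h1, h3, h4, h5, h6⟩ := hcon (fun x => cl x = 0 ∨ cl x = 1)
      (by
        obtain ⟨i, h1, h3, h4⟩ := hC
        exact ⟨i, h1, h3, by tauto⟩)
      (by
        obtain ⟨i, h1, h3, h4⟩ := hD
        refine ⟨i, h1, h3, ?_⟩
        rcases h4 with h4 | h4 <;> rw [h4] <;> decide)
    refine ⟨i, j, h1, h3, h4, h5, ?_⟩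
    have hr := H i j h1 h3 h4 h5
    have hi := h2 i (by omega)
    by_cases hj : cl j = 2
    · have hjk : j = k := by
        by_contra h
        exact h2 j (by omega) hj
      subst hjk
      have := hk i h1 h3 h5
      subst this
      exfalso
      have h7 : ¬ (cl j = 0 ∨ cl j = 1) := by rw [hj]; decide
      tauto
    · have key : ∀ p q : Fin 5, p ≠ 2 → q ≠ 2 → rg p q →
          ((p = 0 ∨ p = 1) ↔ ¬ (q = 0 ∨ q = 1)) →
          ((p = 0 ∧ q = 4) ∨ (p = 4 ∧ q = 0)) := by decide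
      exact key _ _ hi hj hr h6

/-- the word `1^(a-1) 3^(a-1) 0 4 1^(k-1-a) 3^(k-1-a) 2` -/
def s2c : Fin 7 → Fin 5 := ![1, 3, 0, 4, 1, 3, 2]

theorem stS2 : StS2 := by
  intro k E a hL hl hr
  by_contra hcon
  have hD : ¬ Dead k E := fun h => hcon (Or.inl h)
  apply hcon
  right
  clear hcon
  have ha := hL.ha
  have hb := hL.hb
  have ek := hL.ek
  have e1 := hL.e1
  have hcop : Cop k (2 * k - 1) E (fun x y =>
      rg (w7 s2c (a - 1) (2 * a - 2) (2 * a - 1) (2 * a) (a + k - 1) (2 * k - 2) x)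
        (w7 s2c (a - 1) (2 * a - 2) (2 * a - 1) (2 * a) (a + k - 1) (2 * k - 2) y)) := by
    by_contra h
    exact hD ⟨_, h⟩
  obtain ⟨u1, u2, u3, u4, u5, u6, o1, o2, o3, o4, o5, k6, n1, n2, n3, n4, n5, n6, n7, H⟩ :=
    cuts7 s2c (by omega) (by omega) (by omega) (by omega) (by omega) (by omega) hcop
  set cl : ℕ → Fin 5 := fun i => w7 s2c u1 u2 u3 u4 u5 u6 i with hcl
  -- the classes of the vertices
  have v1 : ∀ i, i ≤ u1 → cl i = 1 := by
    intro i h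
    simp only [hcl, w7, if_pos h]
    rfl
  have v2 : ∀ i, u1 < i → i ≤ u2 → cl i = 3 := by
    intro i h h'
    simp only [hcl, w7, if_neg (not_le.2 h), if_pos h']
    rfl
  have v3 : ∀ i, u2 < i → i ≤ u3 → cl i = 0 := by
    intro i h h'
    simp only [hcl, w7, if_neg (show ¬ i ≤ u1 by omega), if_neg (not_le.2 h), if_pos h']
    rfl
  have v4 : ∀ i, u3 < i → i ≤ u4 → cl i = 4 := by
    intro i h h'
    simp only [hcl, w7, if_neg (show ¬ i ≤ u1 by omega), if_neg (show ¬ i ≤ u2 by omega),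
      if_neg (not_le.2 h), if_pos h']
    rfl
  have v5 : ∀ i, u4 < i → i ≤ u5 → cl i = 1 := by
    intro i h h'
    simp only [hcl, w7, if_neg (show ¬ i ≤ u1 by omega), if_neg (show ¬ i ≤ u2 by omega),
      if_neg (show ¬ i ≤ u3 by omega), if_neg (not_le.2 h), if_pos h']
    rfl
  have v6 : ∀ i, u5 < i → i ≤ u6 → cl i = 3 := by
    intro i h h'
    simp only [hcl, w7, if_neg (show ¬ i ≤ u1 by omega), if_neg (show ¬ i ≤ u2 by omega),
      if_neg (show ¬ i ≤ u3 by omega), if_neg (show ¬ i ≤ u4 by omega), if_neg (not_le.2 h),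
      if_pos h']
    rfl
  have v7 : ∀ i, u6 < i → cl i = 2 := by
    intro i h
    simp only [hcl, w7, if_neg (show ¬ i ≤ u1 by omega), if_neg (show ¬ i ≤ u2 by omega),
      if_neg (show ¬ i ≤ u3 by omega), if_neg (show ¬ i ≤ u4 by omega),
      if_neg (show ¬ i ≤ u5 by omega), if_neg (not_le.2 h)]
    rfl
  have q0 : ∀ i, cl i = 0 → u2 < i ∧ i ≤ u3 := by
    intro i h
    simp only [hcl, w7] at h
    split_ifs at h <;> first | omega | (exfalso; revert h; decide)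
  have q4 : ∀ i, cl i = 4 → u3 < i ∧ i ≤ u4 := by
    intro i h
    simp only [hcl, w7] at h
    split_ifs at h <;> first | omega | (exfalso; revert h; decide)
  have q2 : ∀ i, cl i = 2 → u6 < i := by
    intro i h
    simp only [hcl, w7] at h
    split_ifs at h <;> first | omega | (exfalso; revert h; decide)
  have Hak := H a k (by omega) (by omega) le_rfl ek
  have H1 := H 1 (a + 1) (by omega) (by omega) (by omega) e1
  have b04 : ¬ rg 0 3 ∧ ¬ rg 0 2 ∧ ¬ rg 4 2 ∧ ¬ rg 1 4 ∧ ¬ rg 3 0 ∧ ¬ rg 3 1 ∧ ¬ rg 4 1 := by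
    decide
  obtain ⟨b1, b2, b3, b4, b5, b6, b7⟩ := b04
  have z1 : ∀ i j, cl i = 0 → cl j = 2 → ¬ rg (cl i) (cl j) := by
    intro i j h h'
    rw [h, h']
    exact b2
  have z2 : ∀ i j, cl i = 4 → cl j = 2 → ¬ rg (cl i) (cl j) := by
    intro i j h h'
    rw [h, h']
    exact b3
  have hC : ∃ i, 1 ≤ i ∧ i ≤ k ∧ (cl i = 0 ∨ cl i = 1) := by
    by_contra hc
    have g1 : u1 = 0 := by
      by_contra h
      exact hc ⟨u1, by omega, by omega, Or.inr (v1 _ le_rfl)⟩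
    have g2 : u3 = u2 := by
      by_contra h
      exact hc ⟨u3, by omega, by omega, Or.inl (v3 _ (by omega) le_rfl)⟩
    have g3 : u5 = u4 := by
      by_contra h
      exact hc ⟨u5, by omega, by omega, Or.inr (v5 _ (by omega) le_rfl)⟩
    exact z2 a k (v4 a (by omega) (by omega)) (v7 k (by omega)) Hak
  have hD0 : ∃ i, 1 ≤ i ∧ i ≤ k ∧ (cl i = 3 ∨ cl i = 4) := by
    by_contra hc
    have g1 : u2 = u1 := by
      by_contra h
      exact hc ⟨u2, by omega, by omega, Or.inl (v2 _ (by omega) le_rfl)⟩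
    have g2 : u4 = u3 := by
      by_contra h
      exact hc ⟨u4, by omega, by omega, Or.inr (v4 _ (by omega) le_rfl)⟩
    have g3 : u6 = u5 := by
      by_contra h
      exact hc ⟨u6, by omega, by omega, Or.inl (v6 _ (by omega) le_rfl)⟩
    exact z1 a k (v3 a (by omega) (by omega)) (v7 k (by omega)) Hak
  obtain ⟨i, j, h1, h2, h3, h4, h5⟩ := cross hL.con hL.uk (by omega) cl H
    (fun i hi h => by have := q2 i h; omega) hC hD0
  have h6 : i = a ∧ j = a + 1 ∧ u3 = a ∧ u4 = a + 1 ∧ u2 = a - 1 := by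
    rcases h5 with ⟨h5, h6⟩ | ⟨h5, h6⟩
    · have g1 := q0 i h5
      have g2 := q4 j h6
      have g3 : ¬ j ≤ a := fun h => hl i j h1 h2 h h4
      have g4 : ¬ a + 1 ≤ i := fun h => hr i j h h2 h3 h4
      omega
    · have g1 := q4 i h5
      have g2 := q0 j h6
      omega
  obtain ⟨-, -, h7, h8, h9⟩ := h6
  have h10 : u1 = 0 := by
    by_contra h
    have e2 : cl 1 = 1 := v1 1 (by omega)
    have e3 : cl (a + 1) = 4 := v4 (a + 1) (by omega) (by omega)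
    have H1' : rg (cl 1) (cl (a + 1)) := H1
    rw [e2, e3] at H1'
    exact b4 H1'
  have h11 : u5 = k := by
    by_contra h
    have e2 : cl a = 0 := v3 a (by omega) (by omega)
    have H1' : rg (cl a) (cl k) := Hak
    rcases Nat.lt_or_ge u6 k with h' | h'
    · rw [e2, v7 k h'] at H1'
      exact b2 H1'
    · rw [e2, v6 k (by omega) h'] at H1'
      exact b1 H1'
  intro i j h1 h2 h3 h4
  by_contra hc
  have hH : rg (cl i) (cl j) := H i j h1 h2 h3 h4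
  have g3 : ¬ j ≤ a := fun h => hl i j h1 h2 h h4
  have g4 : ¬ a + 1 ≤ i := fun h => hr i j h h2 h3 h4
  rw [v2 i (by omega) (by omega), v5 j (by omega) (by omega)] at hH
  exact b6 hH

end Pool.Agent.K7.H42.OG2
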