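import Pool.Agent.K7.H42.OG_S2

set_option autoImplicit false

/-! JOB S3 of project OG. -/

namespace Pool.Agent.K7.H42.OG

open Pool.Agent.K7.H50.OG Pool.Agent.K7.H42.OG2

/-- the word `3^(a-1) 1^(a-1) 0 4 3^(k-1-a) 1^(k-1-a) 2` -/
def s3c : Fin 7 → Fin 5 := ![3, 1, 0, 4, 3, 1, 2]

theorem stS3 : StS3 := by
  intro k E a hL hn
  by_contra hcon
  have hD : ¬ Dead k E := fun h => hcon (Or.inl h)
  have hU : ∀ (i : ℕ) (S : ℕ → Prop), 1 ≤ i → i + 1 < a → S i → S (k - 1) → ¬ S (i + 1) →
      ¬ S a → ¬ ∀ u v, 1 ≤ u → u < v → v ≤ k → E u v → (S u ↔ ¬ S v) → u = i ∧ v = i + 1 :=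
    fun i S h1 h2 h3 h4 h5 h6 h7 => hcon (Or.inr ⟨i, S, h1, h2, h3, h4, h5, h6, h7⟩)
  clear hcon
  have ha := hL.ha
  have hb := hL.hb
  have ek := hL.ek
  have e1 := hL.e1
  have hcop : Cop k (2 * k - 1) E (fun x y =>
      rg (w7 s3c (a - 1) (2 * a - 2) (2 * a - 1) (2 * a) (a + k - 1) (2 * k - 2) x)
        (w7 s3c (a - 1) (2 * a - 2) (2 * a - 1) (2 * a) (a + k - 1) (2 * k - 2) y)) := by
    by_contra h
    exact hD ⟨_, h⟩
  obtain ⟨u1, u2, u3, u4, u5, u6, o1, o2, o3, o4, o5, k6, n1, n2, n3, n4, n5, n6, n7, H⟩ :=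
    cuts7 s3c (by omega) (by omega) (by omega) (by omega) (by omega) (by omega) hcop
  set cl : ℕ → Fin 5 := fun i => w7 s3c u1 u2 u3 u4 u5 u6 i with hcl
  have v1 : ∀ i, i ≤ u1 → cl i = 3 := by
    intro i h
    simp only [hcl, w7, if_pos h]
    rfl
  have v2 : ∀ i, u1 < i → i ≤ u2 → cl i = 1 := by
    intro i h h'
    simp only [hcl, w7, if_neg (not_le.2 h), if_pos h']
    rfl
  have v3 : ∀ i, u2 < i → i ≤ u3 → cl i = 0 := by
    intro i h h'
    simp only [hcl, w7, if_neg (show ¬ i ≤ u1 by omega), if_neg (not_le.2 h), if_pos h']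
    rfl
  have v4 : ∀ i, u3 < i → i ≤ u4 → cl i = 4 := by
    intro i h h'
    simp only [hcl, w7, if_neg (show ¬ i ≤ u1 by omega), if_neg (show ¬ i ≤ u2 by omega),
      if_neg (not_le.2 h), if_pos h']
    rfl
  have v5 : ∀ i, u4 < i → i ≤ u5 → cl i = 3 := by
    intro i h h'
    simp only [hcl, w7, if_neg (show ¬ i ≤ u1 by omega), if_neg (show ¬ i ≤ u2 by omega),
      if_neg (show ¬ i ≤ u3 by omega), if_neg (not_le.2 h), if_pos h']
    rfl
  have v6 : ∀ i, u5 < i → i ≤ u6 → cl i = 1 := by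
    intro i h h'
    simp only [hcl, w7, if_neg (show ¬ i ≤ u1 by omega), if_neg (show ¬ i ≤ u2 by omega),
      if_neg (show ¬ i ≤ u3 by omega), if_neg (show ¬ i ≤ u4 by omega), if_neg (not_le.2 h),
      if_pos h']
    rfl
  have v7 : ∀ i, u6 < i → cl i = 2 := by
    intro i h
    simp only [hcl, w7, if_neg (show ¬ i ≤ u1 by omega), if_neg (show ¬ i ≤ u2 by omega),
      if_neg (show ¬ i ≤ u3 by omega), if_neg (show ¬ i ≤ u4 by omega),
      if_neg (show ¬ i ≤ u5 by omega), if_neg (not_le.2 h)]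
    rfl
  have q0 : ∀ i, cl i = 0 → u2 < i ∧ i ≤ u3 := by
    intro i h
    simp only [hcl, w7] at h
    split_ifs at h <;> first | omega | (exfalso; revert h; decide)
  have q4 : ∀ i, cl i = 4 → u3 < i ∧ i ≤ u4 := by
    intro i h
    simp only [hcl, w7] at h
    split_ifs at h <;> first | omega | (exfalso; revert h; decide)
  have q2 : ∀ i, cl i = 2 → u6 < i := by
    intro i h
    simp only [hcl, w7] at h
    split_ifs at h <;> first | omega | (exfalso; revert h; decide)
  have Hak : rg (cl a) (cl k) := H a k (by omega) (by omega) le_rfl ek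
  have H1 : rg (cl 1) (cl (a + 1)) := H 1 (a + 1) (by omega) (by omega) (by omega) e1
  have hH : ∀ i j, 1 ≤ i → i < j → j ≤ k → E i j → rg (cl i) (cl j) := H
  clear_value cl
  clear H hcop
  have b04 : ¬ rg 0 2 ∧ ¬ rg 4 2 ∧ ¬ rg 3 0 ∧ ¬ rg 3 1 ∧ ¬ rg 4 1 := by
    decide
  obtain ⟨b1, b2, b3, b4, b5⟩ := b04
  have hC : ∃ i, 1 ≤ i ∧ i ≤ k ∧ (cl i = 0 ∨ cl i = 1) := by
    by_contra hc
    have g1 : u2 = u1 := by
      by_contra h
      exact hc ⟨u2, by omega, by omega, Or.inr (v2 _ (by omega) le_rfl)⟩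
    have g2 : u3 = u2 := by
      by_contra h
      exact hc ⟨u3, by omega, by omega, Or.inl (v3 _ (by omega) le_rfl)⟩
    have g3 : u6 = u5 := by
      by_contra h
      exact hc ⟨u6, by omega, by omega, Or.inr (v6 _ (by omega) le_rfl)⟩
    rw [v4 a (by omega) (by omega), v7 k (by omega)] at Hak
    exact b2 Hak
  have hD0 : ∃ i, 1 ≤ i ∧ i ≤ k ∧ (cl i = 3 ∨ cl i = 4) := by
    by_contra hc
    have g1 : u1 = 0 := by
      by_contra h
      exact hc ⟨u1, by omega, by omega, Or.inl (v1 _ le_rfl)⟩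
    have g2 : u4 = u3 := by
      by_contra h
      exact hc ⟨u4, by omega, by omega, Or.inr (v4 _ (by omega) le_rfl)⟩
    have g3 : u5 = u4 := by
      by_contra h
      exact hc ⟨u5, by omega, by omega, Or.inl (v5 _ (by omega) le_rfl)⟩
    rw [v3 a (by omega) (by omega), v7 k (by omega)] at Hak
    exact b1 Hak
  obtain ⟨i, j, h1, h2, h3, h4, h5⟩ := cross hL.con hL.uk (by omega) cl hH
    (fun i hi h => by have := q2 i h; omega) hC hD0
  have h6 : i = u3 ∧ u3 = u2 + 1 ∧ u4 = u3 + 1 ∧ j = u4 := by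
    rcases h5 with ⟨h5, h6⟩ | ⟨h5, h6⟩
    · have g1 := q0 i h5
      have g2 := q4 j h6
      omega
    · have g1 := q4 i h5
      have g2 := q0 j h6
      omega
  obtain ⟨rfl, h7, h8, rfl⟩ := h6
  rcases lt_trichotomy i a with h | h | h
  · rcases Nat.lt_or_ge j a with h' | h'
    · have y1 : u6 = k - 1 := by
        by_contra hc
        have e2 : cl a = 3 := v5 a (by omega) (by omega)
        rcases Nat.lt_or_ge u5 k with h9 | h9
        · rw [e2, v6 k h9 (by omega)] at Hak
          exact b4 Hak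
        · omega
      have y2 : u5 < k - 1 := by omega
      have y3 : a ≤ u5 := by omega
      refine hU i (fun x => cl x = 0 ∨ cl x = 1) h1 (by omega) (Or.inl (v3 i (by omega) le_rfl))
        (Or.inr (v6 _ y2 (by omega))) ?_ ?_ ?_
      · rw [v4 (i + 1) (by omega) (by omega)]
        decide
      · rw [v5 a h' y3]
        decide
      · intro u v g1 g2 g3 g4 g5
        have g6 := hH u v g1 g2 g3 g4
        by_cases hv : cl v = 2
        · exfalso
          have g7 := q2 v hv
          have g8 : v = k := by omega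
          subst g8
          have g9 := hL.uk u g1 g2 g4
          subst g9
          rw [v5 u h' y3, hv] at g5
          revert g5
          decide
        · have hu : cl u ≠ 2 := fun h => by
            have := q2 u h
            omega
          have key : ∀ p q : Fin 5, p ≠ 2 → q ≠ 2 → rg p q →
              ((p = 0 ∨ p = 1) ↔ ¬ (q = 0 ∨ q = 1)) →
              ((p = 0 ∧ q = 4) ∨ (p = 4 ∧ q = 0)) := by decide
          rcases key _ _ hu hv g6 g5 with ⟨g7, g8⟩ | ⟨g7, g8⟩
          · have := q0 u g7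
            have := q4 v g8
            omega
          · have := q4 u g7
            have := q0 v g8
            omega
    · have e2 : cl a = 4 := v4 a (by omega) (by omega)
      rw [e2] at Hak
      rcases Nat.lt_or_ge u6 k with h9 | h9
      · rw [v7 k h9] at Hak
        exact b2 Hak
      · rcases Nat.lt_or_ge u5 k with h10 | h10
        · rw [v6 k h10 h9] at Hak
          exact b5 Hak
        · omega
  · apply hn
    have : j = a + 1 := by omega
    rw [h, this] at h4
    exact h4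
  · rcases Nat.eq_zero_or_pos u1 with h9 | h9
    · omega
    · rw [v1 1 h9] at H1
      rcases Nat.lt_or_ge u2 (a + 1) with h10 | h10
      · rw [v3 (a + 1) h10 (by omega)] at H1
        exact b3 H1
      · rw [v2 (a + 1) (by omega) h10] at H1
        exact b4 H1

end Pool.Agent.K7.H42.OG
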