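import Pool.Agent.K7.H50.OG.Basic

set_option autoImplicit false

/-! JOB V2 of project OG, and the common part of the pendant words
`0 1^s 4^a 3^(k-a-1) 1^t 2 1^(k-p)`, `s + t = p - 2`. -/

namespace Pool.Agent.K7.H42.OG

open Pool.Agent.K7.H50.OG

/-- the pendant word -/
def vw (k a s t x : ℕ) : Fin 5 :=
  if x ≤ 1 then 0
  else if x ≤ s + 1 then 1
  else if x ≤ s + a + 1 then 4
  else if x ≤ s + k then 3
  else if x ≤ s + k + t then 1
  else if x ≤ s + k + t + 1 then 2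
  else 1

/-- a copy of `E` in a pendant word, by its cut indices -/
theorem vcuts {k a s t p : ℕ} {E : Gr} (ha : a < k) (hp : s + t + 2 = p) (hpk : p < k)
    (h : Cop k (2 * k - 1) E (fun x y => rg (vw k a s t x) (vw k a s t y))) :
    ∃ u1 u2 u3 u4 u5 u6 : ℕ, u1 ≤ u2 ∧ u2 ≤ u3 ∧ u3 ≤ u4 ∧ u4 ≤ u5 ∧ u5 ≤ u6 ∧ u6 ≤ k ∧
      u1 ≤ 1 ∧ u2 ≤ u1 + s ∧ u3 ≤ u2 + a ∧ u4 + a + 1 ≤ u3 + k ∧ u5 ≤ u4 + t ∧ u6 ≤ u5 + 1 ∧
      p ≤ u6 ∧
      (∀ i j, 1 ≤ i → i < j → j ≤ k → E i j →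
        ¬ (((u1 < i ∧ i ≤ u2) ∨ (u4 < i ∧ i ≤ u5) ∨ u6 < i) ∧ u2 < j ∧ j ≤ u4)) ∧
      (∀ i j, 1 ≤ i → i < j → j ≤ k → E i j →
        ¬ (((u1 < j ∧ j ≤ u2) ∨ (u4 < j ∧ j ≤ u5) ∨ u6 < j) ∧ u2 < i ∧ i ≤ u4)) ∧
      (∀ i j, 1 ≤ i → i < j → j ≤ k → E i j → i ≤ u1 →
        ¬ (u3 < j ∧ j ≤ u4) ∧ ¬ (u5 < j ∧ j ≤ u6)) ∧
      (∀ i j, 1 ≤ i → i < j → j ≤ k → E i j → u5 < j → j ≤ u6 → ¬ (u2 < i ∧ i ≤ u3)) := by
  obtain ⟨f, h1, h2, h3⟩ := h
  obtain ⟨u1, k1, l1, m1⟩ := cut h2 1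
  obtain ⟨u2, k2, l2, m2⟩ := cut h2 (s + 1)
  obtain ⟨u3, k3, l3, m3⟩ := cut h2 (s + a + 1)
  obtain ⟨u4, k4, l4, m4⟩ := cut h2 (s + k)
  obtain ⟨u5, k5, l5, m5⟩ := cut h2 (s + k + t)
  obtain ⟨u6, k6, l6, m6⟩ := cut h2 (s + k + t + 1)
  have mono : ∀ {t t' u u' : ℕ}, t ≤ t' → u ≤ k → u' ≤ k → (∀ i, 1 ≤ i → i ≤ u → f i ≤ t) →
      (∀ i, u' < i → i ≤ k → t' < f i) → u ≤ u' := by
    intro t t' u u' a1 a2 a3 a4 a5
    by_contra hc
    have := a4 u (by omega) le_rfl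
    have := a5 u (by omega) a2
    omega
  have o1 : u1 ≤ u2 := mono (by omega) k1 k2 l1 m2
  have o2 : u2 ≤ u3 := mono (by omega) k2 k3 l2 m3
  have o3 : u3 ≤ u4 := mono (by omega) k3 k4 l3 m4
  have o4 : u4 ≤ u5 := mono (by omega) k4 k5 l4 m5
  have o5 : u5 ≤ u6 := mono (by omega) k5 k6 l5 m6
  have c1 := run_card h2 k1 (Nat.zero_le _) (t := 0) (fun i a b => (h1 i (by omega) b).1) l1
  have c2 := run_card h2 k2 o1 m1 l2
  have c3 := run_card h2 k3 o2 m2 l3
  have c4 := run_card h2 k4 o3 m3 l4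
  have c5 := run_card h2 k5 o4 m4 l5
  have c6 := run_card h2 k6 o5 m5 l6
  have c7 := run_card h2 le_rfl k6 m6 (fun i a b => (h1 i a b).2)
  have cl : ∀ i, 1 ≤ i → i ≤ k → (i ≤ u1 ∧ vw k a s t (f i) = 0) ∨
      (u1 < i ∧ i ≤ u2 ∧ vw k a s t (f i) = 1) ∨ (u2 < i ∧ i ≤ u3 ∧ vw k a s t (f i) = 4) ∨
      (u3 < i ∧ i ≤ u4 ∧ vw k a s t (f i) = 3) ∨ (u4 < i ∧ i ≤ u5 ∧ vw k a s t (f i) = 1) ∨
      (u5 < i ∧ i ≤ u6 ∧ vw k a s t (f i) = 2) ∨ (u6 < i ∧ vw k a s t (f i) = 1) := by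
    intro i hi hik
    have q1 := l1 i hi
    have q2 := l2 i hi
    have q3 := l3 i hi
    have q4 := l4 i hi
    have q5 := l5 i hi
    have q6 := l6 i hi
    have w1 := m1 i
    have w2 := m2 i
    have w3 := m3 i
    have w4 := m4 i
    have w5 := m5 i
    have w6 := m6 i
    unfold vw
    split_ifs <;> simp <;> omega
  refine ⟨u1, u2, u3, u4, u5, u6, o1, o2, o3, o4, o5, k6, by omega, by omega, by omega, by omega,
    by omega, by omega, by omega, ?_, ?_, ?_, ?_⟩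
  · rintro i j hi hij hj he ⟨g1, g2, g3⟩
    have hr : rg (vw k a s t (f i)) (vw k a s t (f j)) := h3 i j hi hij hj he
    have ci := cl i hi (by omega)
    have cj := cl j (by omega) hj
    have ei : vw k a s t (f i) = 1 := by
      rcases ci with ⟨x1, x2⟩ | ⟨x1, x3, x2⟩ | ⟨x1, x3, x2⟩ | ⟨x1, x3, x2⟩ | ⟨x1, x3, x2⟩ |
        ⟨x1, x3, x2⟩ | ⟨x1, x2⟩ <;> first | exact x2 | omega
    have ej : vw k a s t (f j) = 4 ∨ vw k a s t (f j) = 3 := by
      rcases cj with ⟨x1, x2⟩ | ⟨x1, x3, x2⟩ | ⟨x1, x3, x2⟩ | ⟨x1, x3, x2⟩ | ⟨x1, x3, x2⟩ |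
        ⟨x1, x3, x2⟩ | ⟨x1, x2⟩ <;> first | exact Or.inl x2 | exact Or.inr x2 | omega
    rcases ej with ej | ej <;> rw [ei, ej] at hr <;> revert hr <;> decide
  · rintro i j hi hij hj he ⟨g1, g2, g3⟩
    have hr : rg (vw k a s t (f i)) (vw k a s t (f j)) := h3 i j hi hij hj he
    have ci := cl i hi (by omega)
    have cj := cl j (by omega) hj
    have ei : vw k a s t (f j) = 1 := by
      rcases cj with ⟨x1, x2⟩ | ⟨x1, x3, x2⟩ | ⟨x1, x3, x2⟩ | ⟨x1, x3, x2⟩ | ⟨x1, x3, x2⟩ |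
        ⟨x1, x3, x2⟩ | ⟨x1, x2⟩ <;> first | exact x2 | omega
    have ej : vw k a s t (f i) = 4 ∨ vw k a s t (f i) = 3 := by
      rcases ci with ⟨x1, x2⟩ | ⟨x1, x3, x2⟩ | ⟨x1, x3, x2⟩ | ⟨x1, x3, x2⟩ | ⟨x1, x3, x2⟩ |
        ⟨x1, x3, x2⟩ | ⟨x1, x2⟩ <;> first | exact Or.inl x2 | exact Or.inr x2 | omega
    rcases ej with ej | ej <;> rw [ei, ej] at hr <;> revert hr <;> decide
  · intro i j hi hij hj he hu
    have hr : rg (vw k a s t (f i)) (vw k a s t (f j)) := h3 i j hi hij hj he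
    have ci := cl i hi (by omega)
    have cj := cl j (by omega) hj
    have ei : vw k a s t (f i) = 0 := by
      rcases ci with ⟨x1, x2⟩ | ⟨x1, x3, x2⟩ | ⟨x1, x3, x2⟩ | ⟨x1, x3, x2⟩ | ⟨x1, x3, x2⟩ |
        ⟨x1, x3, x2⟩ | ⟨x1, x2⟩ <;> first | exact x2 | omega
    constructor
    · rintro ⟨g1, g2⟩
      have ej : vw k a s t (f j) = 3 := by
        rcases cj with ⟨x1, x2⟩ | ⟨x1, x3, x2⟩ | ⟨x1, x3, x2⟩ | ⟨x1, x3, x2⟩ | ⟨x1, x3, x2⟩ |
          ⟨x1, x3, x2⟩ | ⟨x1, x2⟩ <;> first | exact x2 | omega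
      rw [ei, ej] at hr
      revert hr
      decide
    · rintro ⟨g1, g2⟩
      have ej : vw k a s t (f j) = 2 := by
        rcases cj with ⟨x1, x2⟩ | ⟨x1, x3, x2⟩ | ⟨x1, x3, x2⟩ | ⟨x1, x3, x2⟩ | ⟨x1, x3, x2⟩ |
          ⟨x1, x3, x2⟩ | ⟨x1, x2⟩ <;> first | exact x2 | omega
      rw [ei, ej] at hr
      revert hr
      decide
  · rintro i j hi hij hj he g1 g2 ⟨g3, g4⟩
    have hr : rg (vw k a s t (f i)) (vw k a s t (f j)) := h3 i j hi hij hj he
    have ci := cl i hi (by omega)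
    have cj := cl j (by omega) hj
    have ei : vw k a s t (f i) = 4 := by
      rcases ci with ⟨x1, x2⟩ | ⟨x1, x3, x2⟩ | ⟨x1, x3, x2⟩ | ⟨x1, x3, x2⟩ | ⟨x1, x3, x2⟩ |
        ⟨x1, x3, x2⟩ | ⟨x1, x2⟩ <;> first | exact x2 | omega
    have ej : vw k a s t (f j) = 2 := by
      rcases cj with ⟨x1, x2⟩ | ⟨x1, x3, x2⟩ | ⟨x1, x3, x2⟩ | ⟨x1, x3, x2⟩ | ⟨x1, x3, x2⟩ |
        ⟨x1, x3, x2⟩ | ⟨x1, x2⟩ <;> first | exact x2 | omega
    rw [ei, ej] at hr
    revert hr
    decide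

theorem stV2 : StV2 := by
  intro k E a b p m hL hp hpk hm hmk ep em hpm
  by_contra hcon
  have hD : ¬ Dead k E := fun h => hcon (Or.inl h)
  have hU : ∀ u, 2 ≤ u → u < a → ¬ Pend E 1 k u (a - 1) p :=
    fun u h1 h2 h3 => hcon (Or.inr ⟨u, h1, h2, h3⟩)
  have hcop : Cop k (2 * k - 1) E
      (fun x y => rg (vw k a (a - 2) (p - a) x) (vw k a (a - 2) (p - a) y)) := by
    by_contra h
    exact hD ⟨_, h⟩
  have pb := hL.u1 p hp (by omega) ep
  have mb := hL.u1 m hm (by omega) em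
  have ha := hL.ha
  have hab := hL.hab
  have hb := hL.hb
  have ek := hL.ek
  obtain ⟨u1, u2, u3, u4, u5, u6, o1, o2, o3, o4, o5, k6, n1, n2, n3, n4, n5, n6, n7, eA, eB, eX,
    eZ⟩ := vcuts (show a < k by omega) (show a - 2 + (p - a) + 2 = p by omega) hpk hcop
  have c1 : u2 < u4 := by
    by_contra hc
    have := (eX 1 p (by omega) hp (by omega) ep (by omega)).2
    omega
  have c2 : u1 < u2 ∨ u4 < u5 ∨ u6 < k := by
    by_contra hc
    rcases Nat.eq_zero_or_pos u1 with h0 | h0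
    · have := eZ a k (by omega) (by omega) le_rfl ek (by omega) (by omega)
      omega
    · have A := eX 1 p (by omega) hp (by omega) ep (by omega)
      have B := eX 1 m (by omega) hm (by omega) em (by omega)
      omega
  rcases Nat.eq_zero_or_pos u1 with h0 | h0 <;> rcases Nat.lt_or_ge u5 u6 with h6 | h6
  · -- only the last letter
    rcases Nat.lt_or_ge u6 k with hk | hk
    · have h1 := eB a k (by omega) (by omega) le_rfl ek
      have h2 : u4 = a - 1 ∧ u6 = p ∧ u5 = p - 1 := by omega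
      have hP : Pend E 1 k (u2 + 1) (a - 1) p := by
        intro i j hi hij hj he
        constructor
        · intro g1 g2
          by_contra g3
          exact eB i j hi hij hj he (by omega)
        · intro g1 g2
          exfalso
          exact eA i j hi hij hj he (by omega)
      refine hU (u2 + 1) ?_ (by omega) hP
      by_contra h3
      have := (hP 1 m (by omega) hm (by omega) em).1 (by omega) (by omega)
      omega
    · by_cases haI : u2 < a ∧ a ≤ u4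
      · obtain ⟨i, j, h1, h2, h3, h4, h5⟩ := hL.con (fun x => (x ≤ u2 ∨ u4 < x) ∧ x < k)
          (by
            rcases c2 with c2 | c2 | c2
            · exact ⟨u2, by omega, by omega, by omega, by omega⟩
            · exact ⟨u5, by omega, by omega, by omega, by omega⟩
            · omega) ⟨a, by omega, by omega, by omega⟩
        by_cases hi : (i ≤ u2 ∨ u4 < i) ∧ i < k
        · have hj := h5.1 hi
          rcases Nat.lt_or_ge j k with hjk | hjk
          · exact eA i j h1 h2 h3 h4 (by omega)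
          · have : j = k := by omega
            subst this
            have := hL.uk i h1 h2 h4
            omega
        · have hj : (j ≤ u2 ∨ u4 < j) ∧ j < k := by
            by_contra hj
            exact hi (h5.2 hj)
          exact eB i j h1 h2 h3 h4 (by omega)
      · obtain ⟨i, j, h1, h2, h3, h4, h5⟩ := hL.con (fun x => u2 < x ∧ x ≤ u4)
          ⟨u4, by omega, by omega, by omega⟩ ⟨k, by omega, by omega, by omega⟩
        by_cases hi : u2 < i ∧ i ≤ u4
        · have hj := h5.1 hi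
          rcases Nat.lt_or_ge j k with hjk | hjk
          · exact eB i j h1 h2 h3 h4 (by omega)
          · have : j = k := by omega
            subst this
            have := hL.uk i h1 h2 h4
            omega
        · have hj : u2 < j ∧ j ≤ u4 := by
            by_contra hj
            exact hi (h5.2 hj)
          exact eA i j h1 h2 h3 h4 (by omega)
  · -- no single letter
    obtain ⟨i, j, h1, h2, h3, h4, h5⟩ := hL.con (fun x => u2 < x ∧ x ≤ u4)
      ⟨u4, by omega, by omega, by omega⟩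
      (by
        rcases c2 with c2 | c2 | c2
        · exact ⟨u2, by omega, by omega, by omega⟩
        · exact ⟨u5, by omega, by omega, by omega⟩
        · exact ⟨k, by omega, by omega, by omega⟩)
    by_cases hi : u2 < i ∧ i ≤ u4
    · have hj := h5.1 hi
      exact eB i j h1 h2 h3 h4 (by omega)
    · have hj : u2 < j ∧ j ≤ u4 := by
        by_contra hj
        exact hi (h5.2 hj)
      exact eA i j h1 h2 h3 h4 (by omega)
  · -- both single letters
    have g1 := (eX 1 p (by omega) hp (by omega) ep (by omega)).2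
    have g2 := eB a k (by omega) (by omega) le_rfl ek
    have g3 : a ≤ u4 := by omega
    have g4 : u6 = k := by omega
    have g5 := eZ a k (by omega) (by omega) le_rfl ek (by omega) (by omega)
    obtain ⟨i, j, h1, h2, h3, h4, h5⟩ := hL.con (fun x => (u2 < x ∧ x ≤ u4) ∨ x = k)
      ⟨u4, by omega, by omega, by omega⟩ ⟨1, by omega, by omega, by omega⟩
    by_cases hi : (u2 < i ∧ i ≤ u4) ∨ i = k
    · have hj := h5.1 hi
      exact eB i j h1 h2 h3 h4 (by omega)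
    · have hj : (u2 < j ∧ j ≤ u4) ∨ j = k := by
        by_contra hj
        exact hi (h5.2 hj)
      rcases hj with hj | hj
      · rcases Nat.lt_or_ge u1 i with g6 | g6
        · exact eA i j h1 h2 h3 h4 (by omega)
        · have g7 := (eX i j h1 h2 h3 h4 g6).1
          have g8 : i = 1 := by omega
          subst g8
          have := hL.u1 j h2 h3 h4
          omega
      · subst hj
        have := hL.uk i h1 h2 h4
        omega
  · -- only the first letter
    have g2 := eB a k (by omega) (by omega) le_rfl ek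
    have g3 : u4 = k := by omega
    obtain ⟨i, j, h1, h2, h3, h4, h5⟩ := hL.con (fun x => 2 ≤ x ∧ x ≤ u2)
      ⟨u2, by omega, by omega, by omega, by omega⟩ ⟨1, by omega, by omega, by omega⟩
    by_cases hi : 2 ≤ i ∧ i ≤ u2
    · have hj := h5.1 hi
      exact eA i j h1 h2 h3 h4 (by omega)
    · have hj : 2 ≤ j ∧ j ≤ u2 := by
        by_contra hj
        exact hi (h5.2 hj)
      have g8 : i = 1 := by omega
      subst g8
      have := hL.u1 j h2 h3 h4
      omega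

end Pool.Agent.K7.H42.OG
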