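import Pool.Agent.K7.H83.RT.Stm

set_option autoImplicit false

/-! JOB TR of project RT (MP_f9e5d9_nt). -/

namespace Pool.Agent.K7.H42.RT

open Pool.Agent.K7.H83.RT Finset

theorem key {ι : Type} [Fintype ι] {p : ι → ℕ} (hp : ∀ i, (p i).Prime)
    (hinj : Function.Injective p) (a b : ι → ℕ) :
    (∏ i, p i ^ b i) / Nat.gcd (∏ i, p i ^ a i) (∏ i, p i ^ b i) = ∏ i, p i ^ (b i - a i) := by
  have ha : (∏ i, p i ^ a i) = (∏ i, p i ^ min (a i) (b i)) * ∏ i, p i ^ (a i - b i) := by
    rw [← prod_mul_distrib]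
    refine prod_congr rfl fun i _ => ?_
    rw [← pow_add]
    congr 1
    omega
  have hb : (∏ i, p i ^ b i) = (∏ i, p i ^ min (a i) (b i)) * ∏ i, p i ^ (b i - a i) := by
    rw [← prod_mul_distrib]
    refine prod_congr rfl fun i _ => ?_
    rw [← pow_add]
    congr 1
    omega
  have hc : Nat.Coprime (∏ i, p i ^ (a i - b i)) (∏ i, p i ^ (b i - a i)) := by
    refine Nat.Coprime.prod_left fun i _ => Nat.Coprime.prod_right fun j _ => ?_
    by_cases h : i = j
    · subst h
      rcases Nat.le_total (a i) (b i) with h | h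
      · rw [Nat.sub_eq_zero_of_le h]
        simp
      · rw [Nat.sub_eq_zero_of_le h]
        simp
    · exact Nat.Coprime.pow _ _ ((Nat.coprime_primes (hp i) (hp j)).2 fun h' => h (hinj h'))
  have hg : 0 < ∏ i, p i ^ min (a i) (b i) :=
    prod_pos fun i _ => pow_pos (hp i).pos _
  rw [ha, hb, Nat.gcd_mul_left, hc.gcd_eq_one, mul_one, Nat.mul_div_cancel_left _ hg]

theorem stTR : StTR := by
  intro ι _ A P hP
  classical
  obtain ⟨m, hm⟩ : ∃ m : ℤ, ∀ x ∈ A, ∀ i, m ≤ x i := by
    obtain ⟨m, hm⟩ := (A.biUnion fun x => univ.image x).bddBelow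
    exact ⟨m, fun x hx i => hm (by
      simp only [coe_biUnion, Set.mem_iUnion, coe_image]
      exact ⟨x, hx, i, by simp, rfl⟩)⟩
  let p : ι → ℕ := fun i => Nat.nth Nat.Prime (Fintype.equivFin ι i)
  have hp : ∀ i, (p i).Prime := fun i => Nat.prime_nth_prime _
  have hinj : Function.Injective p := fun i j h => by
    have := Nat.nth_injective Nat.infinite_setOf_prime h
    exact (Fintype.equivFin ι).injective (Fin.ext this)
  let φ : (ι → ℤ) → ℕ := fun x => ∏ i, p i ^ (x i - m).toNat
  have hφ : ∀ x ∈ A, ∀ y ∈ A, φ y / Nat.gcd (φ x) (φ y) =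
      ∏ i, p i ^ (pos (fun i => y i - x i) i).toNat := by
    intro x hx y hy
    rw [key hp hinj]
    refine prod_congr rfl fun i _ => ?_
    have h1 := hm x hx i
    have h2 := hm y hy i
    congr 1
    simp only [pos]
    omega
  have hpos : ∀ x, 0 < φ x := fun x => prod_pos fun i _ => pow_pos (hp i).pos _
  have hle : ∀ x ∈ A, ∀ y ∈ A, φ x = φ y → ∀ i, y i ≤ x i := by
    intro x hx y hy h i
    have h1 := hφ x hx y hy
    rw [h, Nat.gcd_self, Nat.div_self (hpos y)] at h1
    have h2 := (Finset.prod_eq_one_iff.1 h1.symm) i (mem_univ i)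
    have h3 : (pos (fun i => y i - x i) i).toNat = 0 := by
      by_contra h4
      have := Nat.one_lt_pow h4 (hp i).one_lt
      omega
    simp only [pos] at h3
    omega
  have hA : Set.InjOn φ A := fun x hx y hy h =>
    funext fun i => le_antisymm (hle y hy x hx h.symm i) (hle x hx y hy h i)
  refine ⟨A.image φ, card_image_of_injOn hA, ?_, ?_⟩
  · intro a ha
    obtain ⟨x, -, rfl⟩ := mem_image.1 ha
    exact hpos x
  · refine le_trans (card_le_card ?_) (card_image_le (s := P) (f := fun z => ∏ i, p i ^ (z i).toNat))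
    intro r hr
    simp only [ratios, mem_image, mem_product, Prod.exists] at hr
    obtain ⟨a, b, ⟨⟨x, hx, rfl⟩, y, hy, rfl⟩, rfl⟩ := hr
    rw [mem_image]
    exact ⟨_, hP x hx y hy, (hφ x hx y hy).symm⟩

end Pool.Agent.K7.H42.RT
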